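import Pool.Agent.MP_b33505_an.Fin2

namespace Pool.Agent.Results.MP_b33505_an.RadialBranch

open MeasureTheory Set Metric Pool.Agent.MP_b33505_an

/-- On a ball, for a radial source, any `γ > 1/2` and a radial initial datum, the branch of mild
solutions through `(0, m₀)` is global in the parameter. -/
theorem result (d : ℕ) (hd : 2 ≤ d) (R D T γ : ℝ) (hR : 0 < R) (hD : 0 < D) (hT : 0 < T)
    (hγ : 1 / 2 < γ) :
    (∃ K : ℝ → EE d → EE d → ℝ, IsKernel R D K) ∧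
    ∀ K : ℝ → EE d → EE d → ℝ, IsKernel R D K →
    ∀ s : ℝ → ℝ, Measurable s → (∃ C : ℝ, ∀ r, |s r| ≤ C) →
    ∀ μ : ℝ → ℝ, Measurable μ → (∃ C : ℝ, ∀ x ∈ ball (0 : EE d) R, ‖μ ‖x‖ • x‖ ≤ C) →
    ∃ m₀ : XT d R T,
      (∀ m : XT d R T,
        ((0 : ℝ), m) ∈ Sig R K (fun x => s ‖x‖) γ T (fun x => μ ‖x‖ • x) ↔ m = m₀) ∧
      Prod.fst '' connectedComponentIn
        (Sig R K (fun x => s ‖x‖) γ T (fun x => μ ‖x‖ • x)) ((0 : ℝ), m₀) = Ici 0 := by
  refine ⟨aKer d R D (by omega) hR hD, fun K hK s hs hsb μ hμ hb => ?_⟩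
  obtain ⟨C, hC⟩ := hb
  simpa only [Pi.zero_apply, add_zero, sig_eq] using
    fin_Fin aUn d hd R D T γ hR hD hT hγ K hK s hs hsb μ hμ 0 measurable_const
      ⟨C, fun x hx => ⟨hC x hx, by simpa using (norm_nonneg _).trans (hC x hx)⟩⟩
      (fun x _ => by simp) (fun φ _ => by simp) (Or.inr rfl)

end Pool.Agent.Results.MP_b33505_an.RadialBranch
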