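import Pool.Agent.MP_b33505_an.Fin2

namespace Pool.Agent.Results.MP_b33505_an.ToroidalBranch

open MeasureTheory Set Metric Pool.Agent.MP_b33505_an
open scoped RealInnerProductSpace

/-- On a ball, for a radial source, `γ = 1` and a radial plus toroidal initial datum, the branch
of mild solutions through `(0, m₀)` is global in the parameter. -/
theorem result (d : ℕ) (hd : 2 ≤ d) (R D T : ℝ) (hR : 0 < R) (hD : 0 < D) (hT : 0 < T) :
    (∃ K : ℝ → EE d → EE d → ℝ, IsKernel R D K) ∧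
    ∀ K : ℝ → EE d → EE d → ℝ, IsKernel R D K →
    ∀ s : ℝ → ℝ, Measurable s → (∃ C : ℝ, ∀ r, |s r| ≤ C) →
    ∀ μ : ℝ → ℝ, Measurable μ → ∀ N : EE d → EE d, Measurable N →
    (∃ C : ℝ, ∀ x ∈ ball (0 : EE d) R, ‖μ ‖x‖ • x‖ ≤ C ∧ ‖N x‖ ≤ C) →
    (∀ x ∈ ball (0 : EE d) R, ⟪N x, x⟫ = 0) →
    (∀ φ : EE d → ℝ, Test R φ → ∫ x in ball (0 : EE d) R, ⟪N x, gradient φ x⟫ = 0) →
    ∃ m₀ : XT d R T,
      (∀ m : XT d R T,
        ((0 : ℝ), m) ∈ Sig R K (fun x => s ‖x‖) 1 T (fun x => μ ‖x‖ • x + N x) ↔ m = m₀) ∧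
      Prod.fst '' connectedComponentIn
        (Sig R K (fun x => s ‖x‖) 1 T (fun x => μ ‖x‖ • x + N x)) ((0 : ℝ), m₀) = Ici 0 :=
  ⟨aKer d R D (by omega) hR hD, fun K hK s hs hsb μ hμ N hN hb h1 h2 =>
    fin_Fin aUn d hd R D T 1 hR hD hT (by norm_num) K hK s hs hsb μ hμ N hN hb h1 h2 (Or.inl rfl)⟩

end Pool.Agent.Results.MP_b33505_an.ToroidalBranch
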